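import Pool.Agent.Helper19.FS.Conf
import Pool.Agent.Helper1.TP.Goals

/-!
# CONF in the form `Beta` (MP_75608d_al, final step)
-/

set_option autoImplicit false
set_option linter.unusedSectionVars false

namespace Pool.Agent.Helper19.FS

open Finset Pool.Agent.Helper35.MP Pool.Agent.Helper13.FS
open Pool.Agent.Helper1.TP (Beta)
open Pool.Agent.Helper3.AK (Alt TupleGap)

theorem beta_mono {n : ℕ} {LZ : Type} [Fintype LZ] (Z : Letters (Fin n) LZ) (S0 : LZ → ℝ)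
    (s t2 u c : ℕ) {β β' : ℝ} (h : β ≤ β') (hb : Beta Z S0 s t2 u c β) :
    Beta Z S0 s t2 u c β' := fun a U hU => (hb a U hU).trans h

/-- from a contraction on pairs -/
theorem beta_conf {n : ℕ} {LZ : Type} [Fintype LZ] [DecidableEq LZ] (Z : Letters (Fin n) LZ)
    {θ : ℝ} {S0 : LZ → ℝ} (hS : Wt Z θ S0) {ρ : ℝ} (hρ : 0 ≤ ρ) (hC : Con (tup Z 2) S0 ρ)
    (s t2 u c : ℕ) (hc0 : 0 < c) (hc : 2 * s * u ≤ c * n) :
    Beta Z S0 s t2 u c (4 * (s + s ^ 2 * (n * ρ ^ t2)) / c ^ 2) := by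
  intro a U hU
  have h1 := conf_ite Z hS hρ hC t2 a a.injective U c hc0
    ((Nat.mul_le_mul_left _ hU).trans hc)
  refine le_trans (le_of_eq ?_) h1
  apply sum_congr rfl
  intro w _
  simp only [pos_eq_wd]

theorem pow_le_exp {ε : ℝ} (hε2 : ε ≤ 2) (t : ℕ) : (1 - ε / 2) ^ t ≤ Real.exp (-(ε * t / 2)) := by
  calc (1 - ε / 2) ^ t ≤ Real.exp (-(ε / 2)) ^ t := by
        apply pow_le_pow_left₀ (by linarith)
        have := Real.add_one_le_exp (-(ε / 2))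
        linarith
    _ = Real.exp (-(ε * t / 2)) := by
        rw [← Real.exp_nat_mul]
        congr 1
        ring

/-- from the gap on pairs: at least `(4 / ε) log n` steps -/
theorem beta_gl {n k : ℕ} (hk : 0 < k) (z : Fin k → Alt n) {ε : ℝ} (hε : ε < 2)
    (h : TupleGap z 2 ε) (s t2 u c : ℕ) (ht : 4 * Real.log n ≤ ε * t2) (hs : s ≤ n) (hc0 : 0 < c)
    (hc : 2 * s * u ≤ c * n) :
    Beta (gl fun i => (z i : Equiv.Perm (Fin n))) (lwt (Fin k) (1 / 2)) s t2 u c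
      (8 * s / c ^ 2) := by
  have : Nonempty (Fin k) := ⟨⟨0, hk⟩⟩
  have hc' : (0 : ℝ) < c := by exact_mod_cast hc0
  have h1 := beta_conf (gl fun i => (z i : Equiv.Perm (Fin n)))
    (lwt_Wt (fun i => (z i : Equiv.Perm (Fin n))) (by norm_num) (by norm_num))
    (show 0 ≤ 1 - ε / 2 by linarith) (con_of_tupleGap hk z hε h) s t2 u c hc0 hc
  apply beta_mono _ _ _ _ _ _ _ h1
  rcases Nat.eq_zero_or_pos s with rfl | hs0
  · simp
  have hn : 0 < n := lt_of_lt_of_le hs0 hs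
  have hn' : (0 : ℝ) < n := by exact_mod_cast hn
  have hs' : (s : ℝ) ≤ n := by exact_mod_cast hs
  have h2 : (1 - ε / 2) ^ t2 ≤ ((n : ℝ) ^ 2)⁻¹ := by
    calc (1 - ε / 2) ^ t2 ≤ Real.exp (-(ε * t2 / 2)) := pow_le_exp hε.le t2
      _ ≤ Real.exp (-(2 * Real.log n)) := Real.exp_le_exp.2 (by linarith)
      _ = ((n : ℝ) ^ 2)⁻¹ := by
          rw [Real.exp_neg, two_mul, Real.exp_add, Real.exp_log hn', pow_two]
  have h3 : (s : ℝ) ^ 2 * (n * (1 - ε / 2) ^ t2) ≤ s := by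
    have h4 : (n : ℝ) * (1 - ε / 2) ^ t2 ≤ (n : ℝ)⁻¹ := by
      calc (n : ℝ) * (1 - ε / 2) ^ t2 ≤ n * ((n : ℝ) ^ 2)⁻¹ :=
            mul_le_mul_of_nonneg_left h2 hn'.le
        _ = (n : ℝ)⁻¹ := by field_simp
    calc (s : ℝ) ^ 2 * (n * (1 - ε / 2) ^ t2) ≤ s ^ 2 * (n : ℝ)⁻¹ :=
          mul_le_mul_of_nonneg_left h4 (sq_nonneg _)
      _ = s * (s / n) := by field_simp
      _ ≤ s * 1 := by
          apply mul_le_mul_of_nonneg_left _ (by positivity)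
          rw [div_le_one hn']
          exact hs'
      _ = s := mul_one _
  rw [div_le_div_iff_of_pos_right (by positivity)]
  linarith

/-- with numbers: `s ≥ n ^ (1/2)` tokens, `c ≥ d s` -/
theorem beta_num {d : ℝ} (hd : 0 < d) : ∃ n0 : ℕ, ∀ n k : ℕ, n0 ≤ n → 0 < k →
    ∀ (z : Fin k → Alt n) (ε : ℝ), ε < 2 → TupleGap z 2 ε → ∀ s t2 u c : ℕ,
      4 * Real.log n ≤ ε * t2 → s ≤ n → (n : ℝ) ^ (1 / 2 : ℝ) ≤ s → d * s ≤ c →
      2 * s * u ≤ c * n →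
      Beta (gl fun i => (z i : Equiv.Perm (Fin n))) (lwt (Fin k) (1 / 2)) s t2 u c
        ((n : ℝ) ^ (-(1 / 4) : ℝ)) := by
  have h1 : Filter.Tendsto (fun n : ℕ => (n : ℝ) ^ (1 / 4 : ℝ)) Filter.atTop Filter.atTop :=
    (tendsto_rpow_atTop (by norm_num)).comp tendsto_natCast_atTop_atTop
  obtain ⟨n1, hn1⟩ := Filter.eventually_atTop.1 (h1.eventually_ge_atTop (8 / d ^ 2))
  refine ⟨max n1 1, fun n k hn hk z ε hε h s t2 u c ht hs hs1 hc hu => ?_⟩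
  have hn0 : 0 < n := lt_of_lt_of_le one_pos ((le_max_right _ _).trans hn)
  have hn' : (0 : ℝ) < n := by exact_mod_cast hn0
  have hs0 : (0 : ℝ) < s := lt_of_lt_of_le (by positivity) hs1
  have hc' : (0 : ℝ) < c := lt_of_lt_of_le (by positivity) hc
  have hc0 : 0 < c := by exact_mod_cast hc'
  apply beta_mono _ _ _ _ _ _ _ (beta_gl hk z hε h s t2 u c ht hs hc0 hu)
  have h2 := hn1 n ((le_max_left _ _).trans hn)
  have h3 : (8 * s / (c : ℝ) ^ 2) ≤ 8 / (d ^ 2 * s) := by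
    rw [div_le_div_iff₀ (by positivity) (by positivity)]
    have h4 : (d * s) ^ 2 ≤ (c : ℝ) ^ 2 := pow_le_pow_left₀ (by positivity) hc 2
    calc 8 * (s : ℝ) * (d ^ 2 * s) = 8 * (d * s) ^ 2 := by ring
      _ ≤ 8 * (c : ℝ) ^ 2 := by linarith
  have h4 : (n : ℝ) ^ (1 / 2 : ℝ) = (n : ℝ) ^ (1 / 4 : ℝ) * (n : ℝ) ^ (1 / 4 : ℝ) := by
    rw [← Real.rpow_add hn']
    norm_num
  have h5 : (0 : ℝ) < (n : ℝ) ^ (1 / 4 : ℝ) := by positivity
  calc 8 * (s : ℝ) / (c : ℝ) ^ 2 ≤ 8 / (d ^ 2 * s) := h3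
    _ ≤ 8 / (d ^ 2 * (n : ℝ) ^ (1 / 2 : ℝ)) := by
        apply div_le_div_of_nonneg_left (by norm_num) (by positivity)
        exact mul_le_mul_of_nonneg_left hs1 (by positivity)
    _ = (8 / d ^ 2) / ((n : ℝ) ^ (1 / 4 : ℝ) * (n : ℝ) ^ (1 / 4 : ℝ)) := by
        rw [h4, div_div]
    _ ≤ (n : ℝ) ^ (1 / 4 : ℝ) / ((n : ℝ) ^ (1 / 4 : ℝ) * (n : ℝ) ^ (1 / 4 : ℝ)) :=
        div_le_div_of_nonneg_right h2 (by positivity)
    _ = (n : ℝ) ^ (-(1 / 4) : ℝ) := by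
        rw [Real.rpow_neg hn'.le]
        field_simp

end Pool.Agent.Helper19.FS
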