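import Pool.Agent.Helper19.FS.Beta
import Pool.Agent.Helper38.FS.Defs

/-!
# `Beta` for the letters of `up z` with the parameters of the final step (MP_75608d_al)
-/

set_option autoImplicit false
set_option linter.unusedSectionVars false

namespace Pool.Agent.Helper19.FS

open Finset Pool.Agent.Helper35.MP Pool.Agent.Helper13.FS
open Pool.Agent.Helper1.TP (Beta)
open Pool.Agent.Helper3.AK (Alt TupleGap)
open Pool.Agent.Helper38.FS (up)

/-- MIDDLE form: `c ≥ d s`, `16 N s ≤ d n`, at least `(4 / ε) log n` steps -/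
theorem beta_mid {d : ℝ} (hd : 0 < d) : ∃ n0 : ℕ, ∀ n k : ℕ, n0 ≤ n → 0 < k →
    ∀ (z : Fin k → Alt n) (ε : ℝ), 0 < ε → ε < 2 → TupleGap z 2 ε → ∀ s t2 N c : ℕ,
      4 / ε * Real.log n ≤ t2 → s ≤ n → (n : ℝ) ^ (1 / 2 : ℝ) ≤ s → d * s ≤ c →
      4 * (N : ℝ) * s ≤ d * n →
      Beta (gl (up z)) (lwt (Fin k) (1 / 2)) s t2 (2 * N * s) c ((n : ℝ) ^ (-(1 / 4) : ℝ)) := by
  obtain ⟨n0, h0⟩ := beta_num hd
  refine ⟨n0, fun n k hn hk z ε hε0 hε h s t2 N c ht hs hs1 hc hN => ?_⟩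
  apply h0 n k hn hk z ε hε h s t2 (2 * N * s) c _ hs hs1 hc
  · have h1 : (2 * s * (2 * N * s) : ℝ) ≤ c * n := by
      calc (2 * s * (2 * N * s) : ℝ) = (4 * (N : ℝ) * s) * s := by ring
        _ ≤ (d * n) * s := mul_le_mul_of_nonneg_right hN (by positivity)
        _ = (d * s) * n := by ring
        _ ≤ c * n := mul_le_mul_of_nonneg_right hc (by positivity)
    exact_mod_cast h1
  · have h2 : 4 * Real.log n = ε * (4 / ε * Real.log n) := by field_simp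
    rw [h2]
    exact mul_le_mul_of_nonneg_left ht hε0.le

/-- TOP form: `c = s / 100`, `1000 s N ≤ n` -/
theorem beta_top : ∃ n0 : ℕ, ∀ n k : ℕ, n0 ≤ n → 0 < k →
    ∀ (z : Fin k → Alt n) (ε : ℝ), 0 < ε → ε < 2 → TupleGap z 2 ε → ∀ s t2 N : ℕ,
      4 / ε * Real.log n ≤ t2 → s ≤ n → (n : ℝ) ^ (1 / 2 : ℝ) ≤ s → 1000 * s * N ≤ n →
      Beta (gl (up z)) (lwt (Fin k) (1 / 2)) s t2 (2 * N * s) (s / 100)
        ((n : ℝ) ^ (-(1 / 4) : ℝ)) := by
  obtain ⟨n0, h0⟩ := beta_mid (d := 1 / 200) (by norm_num)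
  have h1 : Filter.Tendsto (fun n : ℕ => (n : ℝ) ^ (1 / 2 : ℝ)) Filter.atTop Filter.atTop :=
    (tendsto_rpow_atTop (by norm_num)).comp tendsto_natCast_atTop_atTop
  obtain ⟨n1, hn1⟩ := Filter.eventually_atTop.1 (h1.eventually_ge_atTop 200)
  refine ⟨max n0 n1, fun n k hn hk z ε hε0 hε h s t2 N ht hs hs1 hN => ?_⟩
  have h2 : (200 : ℝ) ≤ s := (hn1 n ((le_max_right _ _).trans hn)).trans hs1
  have h2' : 200 ≤ s := by exact_mod_cast h2
  have h3 : s ≤ 200 * (s / 100) := by omega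
  have h4 : 4 * N * s * 200 ≤ n := by
    calc 4 * N * s * 200 = 800 * (s * N) := by ring
      _ ≤ 1000 * (s * N) := Nat.mul_le_mul_right _ (by norm_num)
      _ = 1000 * s * N := by ring
      _ ≤ n := hN
  apply h0 n k ((le_max_left _ _).trans hn) hk z ε hε0 hε h s t2 N (s / 100) ht hs hs1
  · have h5 : (s : ℝ) ≤ 200 * ((s / 100 : ℕ) : ℝ) := by exact_mod_cast h3
    linarith
  · have h5 : (4 * (N : ℝ) * s * 200) ≤ n := by exact_mod_cast h4
    linarith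

end Pool.Agent.Helper19.FS
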