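import Pool.Agent.Helper13.FS.StageE
import Pool.Agent.Helper3.AK.Defs

/-!
# CONF (MP_75608d_al, final step): the walk on points leaves a small set

If the walk on ordered pairs of distinct points contracts the functions of mean zero by the factor
`ρ`, then for every start `a` of `s` distinct points and every set `U` with `2 s |U| ≤ c n` the
probability that at least `c` of the points are in `U` after `t` steps is at most
`4 (s + s² n ρ ^ t) / c²`. The contraction follows from `TupleGap z 2 ε` with `ρ = 1 - ε / 2`.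
-/

set_option autoImplicit false
set_option linter.unusedSectionVars false

namespace Pool.Agent.Helper19.FS

open Finset Pool.Agent.Helper35.MP Pool.Agent.Helper13.FS

section con

variable {X Lam : Type*} [Fintype X] [DecidableEq X] [Fintype Lam] [DecidableEq Lam]

/-- the walk contracts the functions of mean zero by the factor `ρ` -/
def Con (L : Letters X Lam) (S : Lam → ℝ) (ρ : ℝ) : Prop :=
  ∀ φ : X → ℝ, ∑ x, φ x = 0 → ∑ x, stp L S φ x ^ 2 ≤ ρ ^ 2 * ∑ x, φ x ^ 2

theorem sum_stp (L : Letters X Lam) {θ : ℝ} {S : Lam → ℝ} (hS : Wt L θ S) (φ : X → ℝ) :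
    ∑ x, stp L S φ x = ∑ x, φ x := by
  unfold stp
  rw [sum_comm]
  have h1 : ∀ l, ∑ x, S l * φ (L.act l x) = S l * ∑ x, φ x := fun l => by
    rw [← mul_sum, Equiv.sum_comp (L.act l) φ]
  rw [sum_congr rfl fun l _ => h1 l, ← sum_mul, hS.one, one_mul]

/-- powers of the averaging step are sums over words -/
theorem iter_words (L : Letters X Lam) (S : Lam → ℝ) (φ : X → ℝ) : ∀ (t : ℕ) (x : X),
    (stp L S)^[t] φ x = ∑ u : Fin t → Lam, (∏ j, S (u j)) * φ (pos L t u x)
  | 0, x => by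
    rw [Fintype.sum_eq_single (fun k => k.elim0)]
    · simp [pos]
    · intro u hu
      exact absurd (Subsingleton.elim _ _) hu
  | t + 1, x => by
    rw [Function.iterate_succ_apply']
    show ∑ l, S l * (stp L S)^[t] φ (L.act l x) = _
    rw [sum_succ]
    apply sum_congr rfl
    intro l _
    rw [iter_words L S φ t, mul_sum]
    apply sum_congr rfl
    intro u _
    rw [pos_cons, Fin.prod_univ_succ]
    simp only [Fin.cons_zero, Fin.cons_succ]
    ring

theorem con_iter (L : Letters X Lam) {θ : ℝ} {S : Lam → ℝ} (hS : Wt L θ S) {ρ : ℝ}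
    (hC : Con L S ρ) (φ : X → ℝ) (hφ : ∑ x, φ x = 0) : ∀ t : ℕ,
    ∑ x, (stp L S)^[t] φ x = 0 ∧
      ∑ x, (stp L S)^[t] φ x ^ 2 ≤ (ρ ^ t) ^ 2 * ∑ x, φ x ^ 2
  | 0 => by simp [hφ]
  | t + 1 => by
    obtain ⟨h1, h2⟩ := con_iter L hS hC φ hφ t
    rw [Function.iterate_succ_apply']
    refine ⟨by rw [sum_stp L hS, h1], (hC _ h1).trans ?_⟩
    calc ρ ^ 2 * ∑ x, (stp L S)^[t] φ x ^ 2 ≤ ρ ^ 2 * ((ρ ^ t) ^ 2 * ∑ x, φ x ^ 2) :=
          mul_le_mul_of_nonneg_left h2 (sq_nonneg _)
      _ = (ρ ^ (t + 1)) ^ 2 * ∑ x, φ x ^ 2 := by ring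

theorem stp_const (L : Letters X Lam) {θ : ℝ} {S : Lam → ℝ} (hS : Wt L θ S) (φ : X → ℝ) (κ : ℝ) :
    stp L S (fun x => φ x - κ) = fun x => stp L S φ x - κ := by
  funext x
  unfold stp
  rw [show ∑ l, S l * (φ (L.act l x) - κ) = ∑ l, (S l * φ (L.act l x) - S l * κ) from
    sum_congr rfl fun l _ => by ring, sum_sub_distrib, ← sum_mul, hS.one, one_mul]

theorem iter_const (L : Letters X Lam) {θ : ℝ} {S : Lam → ℝ} (hS : Wt L θ S) (φ : X → ℝ)
    (κ : ℝ) : ∀ t : ℕ, (stp L S)^[t] (fun x => φ x - κ) = fun x => (stp L S)^[t] φ x - κ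
  | 0 => rfl
  | t + 1 => by
    rw [Function.iterate_succ_apply', iter_const L hS φ κ t, stp_const L hS]
    funext x
    rw [Function.iterate_succ_apply']

/-- pointwise mixing -/
theorem point_mix (L : Letters X Lam) {θ : ℝ} {S : Lam → ℝ} (hS : Wt L θ S) {ρ : ℝ}
    (hρ : 0 ≤ ρ) (hC : Con L S ρ) (φ : X → ℝ) (h1 : ∀ x, |φ x| ≤ 1) {N : ℝ} (hN : 0 ≤ N)
    (hX : (Fintype.card X : ℝ) ≤ N ^ 2) (h0 : ∑ x, φ x ≤ 0) (t : ℕ) (x : X) :
    (stp L S)^[t] φ x ≤ N * ρ ^ t := by
  have hX0 : (0 : ℝ) < Fintype.card X := by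
    have : 0 < Fintype.card X := Fintype.card_pos_iff.2 ⟨x⟩
    exact_mod_cast this
  set κ : ℝ := (∑ x, φ x) / Fintype.card X with hκ
  have hκ0 : κ ≤ 0 := div_nonpos_of_nonpos_of_nonneg h0 hX0.le
  have hm : ∑ x, (φ x - κ) = 0 := by
    rw [sum_sub_distrib, sum_const, card_univ, nsmul_eq_mul, hκ, mul_div_cancel₀ _ hX0.ne']
    ring
  have h2 := (con_iter L hS hC (fun x => φ x - κ) hm t).2
  rw [iter_const L hS] at h2
  have h3 : ∑ x, (φ x - κ) ^ 2 ≤ N ^ 2 := by
    have h4 : ∑ x, (φ x - κ) ^ 2 = ∑ x, φ x ^ 2 - Fintype.card X * κ ^ 2 := by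
      have h5 : ∑ x, φ x = Fintype.card X * κ := by
        rw [hκ, mul_div_cancel₀ _ hX0.ne']
      have h6 : ∑ x, (φ x - κ) ^ 2 = ∑ x, φ x ^ 2 - 2 * κ * ∑ x, φ x + ∑ _x : X, κ ^ 2 := by
        rw [mul_sum, ← sum_sub_distrib, ← sum_add_distrib]
        exact sum_congr rfl fun x _ => by ring
      rw [h6, h5, sum_const, card_univ, nsmul_eq_mul]
      ring
    have h7 : ∑ x, φ x ^ 2 ≤ Fintype.card X := by
      calc ∑ x, φ x ^ 2 ≤ ∑ _x : X, (1 : ℝ) := sum_le_sum fun x _ => by
            rw [← sq_abs]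
            exact pow_le_one₀ (abs_nonneg _) (h1 x)
        _ = Fintype.card X := by simp
    have h8 : 0 ≤ Fintype.card X * κ ^ 2 := by positivity
    linarith
  have h4 : ((stp L S)^[t] φ x - κ) ^ 2 ≤ (N * ρ ^ t) ^ 2 := by
    calc ((stp L S)^[t] φ x - κ) ^ 2 ≤ ∑ x, ((stp L S)^[t] φ x - κ) ^ 2 :=
          single_le_sum (f := fun x => ((stp L S)^[t] φ x - κ) ^ 2)
            (fun _ _ => sq_nonneg _) (mem_univ x)
      _ ≤ (ρ ^ t) ^ 2 * ∑ x, (φ x - κ) ^ 2 := h2
      _ ≤ (ρ ^ t) ^ 2 * N ^ 2 := mul_le_mul_of_nonneg_left h3 (sq_nonneg _)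
      _ = (N * ρ ^ t) ^ 2 := by ring
  have h5 := abs_le_of_sq_le_sq' h4 (by positivity)
  linarith [h5.2]

/-- a symmetric lazy walk with a gap contracts -/
theorem con_of_gap (L : Letters X Lam) {θ : ℝ} {S : Lam → ℝ} (hS : Wt L θ S) (hθ : 1 / 2 ≤ θ)
    {c : ℝ} (hc : 0 < c) (h : ∀ φ : X → ℝ, ∑ x, φ x = 0 →
      ∑ x, φ x * stp L S φ x ≤ c * ∑ x, φ x ^ 2) : Con L S c := by
  have hsym : ∀ φ ψ : X → ℝ, ∑ x, φ x * stp L S ψ x = ∑ x, stp L S φ x * ψ x := by
    intro φ ψ
    unfold stp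
    simp only [mul_sum, sum_mul]
    rw [sum_comm]
    have h1 : ∀ l, ∑ x, φ x * (S l * ψ (L.act l x)) =
        ∑ x, S (L.inv l) * φ (L.act (L.inv l) x) * ψ x := by
      intro l
      rw [← Equiv.sum_comp (L.act l) (fun x => S (L.inv l) * φ (L.act (L.inv l) x) * ψ x)]
      apply sum_congr rfl
      intro x _
      have h5 : (L.act l)⁻¹ (L.act l x) = x := by simp
      rw [L.act_inv, h5, hS.sym]
      ring
    rw [sum_congr rfl fun l _ => h1 l, sum_comm]
    have hinv : Function.Involutive L.inv := L.inv_inv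
    apply sum_congr rfl
    intro x _
    exact (hinv.bijective.sum_comp (fun l => S l * φ (L.act l x) * ψ x))
  have hpos : ∀ φ : X → ℝ, 0 ≤ ∑ x, φ x * stp L S φ x := by
    intro φ
    have h1 : ∑ x, φ x * stp L S φ x = ∑ l, S l * ∑ x, φ x * φ (L.act l x) := by
      unfold stp
      simp only [mul_sum]
      rw [sum_comm]
      apply sum_congr rfl
      intro l _
      apply sum_congr rfl
      intro x _
      ring
    have h2 : ∀ l, -(∑ x, φ x ^ 2) ≤ ∑ x, φ x * φ (L.act l x) := by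
      intro l
      have h3 : 0 ≤ ∑ x, (φ x + φ (L.act l x)) ^ 2 := sum_nonneg fun x _ => sq_nonneg _
      have h4 : ∑ x, (φ x + φ (L.act l x)) ^ 2 =
          ∑ x, φ x ^ 2 + 2 * ∑ x, φ x * φ (L.act l x) + ∑ x, φ (L.act l x) ^ 2 := by
        rw [mul_sum, ← sum_add_distrib, ← sum_add_distrib]
        exact sum_congr rfl fun x _ => by ring
      rw [Equiv.sum_comp (L.act l) (fun x => φ x ^ 2)] at h4
      linarith
    have h3 : ∑ x, φ x * φ (L.act L.e x) = ∑ x, φ x ^ 2 := by
      rw [L.act_e]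
      exact sum_congr rfl fun x _ => by rw [Equiv.Perm.one_apply]; ring
    have hF : 0 ≤ ∑ x, φ x ^ 2 := sum_nonneg fun x _ => sq_nonneg _
    rw [h1, ← add_sum_erase univ _ (mem_univ L.e), h3]
    have h4 : ∑ l ∈ univ.erase L.e, S l * -(∑ x, φ x ^ 2) ≤
        ∑ l ∈ univ.erase L.e, S l * ∑ x, φ x * φ (L.act l x) :=
      sum_le_sum fun l _ => mul_le_mul_of_nonneg_left (h2 l) (hS.nn l)
    rw [← sum_mul] at h4
    have h5 : S L.e + ∑ l ∈ univ.erase L.e, S l = 1 := by
      rw [add_sum_erase univ _ (mem_univ L.e)]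
      exact hS.one
    have h6 : ∑ l ∈ univ.erase L.e, S l = 1 - S L.e := by linarith
    rw [h6] at h4
    have h7 := hS.lazy
    nlinarith [mul_nonneg (show 0 ≤ 2 * S L.e - 1 by linarith) hF]
  intro φ hφ
  set A : X → ℝ := stp L S φ with hA
  set N : ℝ := ∑ x, A x ^ 2 with hN
  set F : ℝ := ∑ x, φ x ^ 2 with hF
  have hA0 : ∑ x, A x = 0 := by rw [hA, sum_stp L hS, hφ]
  have h1 : ∑ x, A x * stp L S A x ≤ c * N := h A hA0
  have h2 : ∑ x, φ x * A x ≤ c * F := h φ hφ
  have h3 : ∑ x, φ x * stp L S A x = N := by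
    rw [hsym]
    exact sum_congr rfl fun x _ => by rw [← hA]; ring
  have h4 := hpos (fun x => A x - c * φ x)
  have h5 : ∀ x, stp L S (fun x => A x - c * φ x) x = stp L S A x - c * A x := by
    intro x
    rw [hA]
    show ∑ l, S l * (stp L S φ (L.act l x) - c * φ (L.act l x)) = _
    unfold stp
    rw [mul_sum, ← sum_sub_distrib]
    exact sum_congr rfl fun l _ => by ring
  have h6 : ∑ x, (A x - c * φ x) * stp L S (fun x => A x - c * φ x) x =
      ∑ x, A x * stp L S A x - c * N - c * ∑ x, φ x * stp L S A x +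
        c ^ 2 * ∑ x, φ x * A x := by
    rw [hN, mul_sum, mul_sum, mul_sum, ← sum_sub_distrib, ← sum_sub_distrib, ← sum_add_distrib]
    apply sum_congr rfl
    intro x _
    rw [h5]
    ring
  rw [h6, h3] at h4
  have h7 : c * N ≤ c ^ 2 * (c * F) := by
    have := mul_le_mul_of_nonneg_left h2 (sq_nonneg c)
    linarith
  have h8 : c * N ≤ c * (c ^ 2 * F) := by linarith
  exact le_of_mul_le_mul_left h8 hc

end con

section conf

variable {Lam : Type*} [Fintype Lam] [DecidableEq Lam]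

/-- the position of a pair -/
theorem pos_tup {n m : ℕ} (L : Letters (Fin n) Lam) : ∀ (t : ℕ) (u : Fin t → Lam)
    (x : Fin m ↪ Fin n) (i : Fin m), pos (tup L m) t u x i = pos L t u (x i)
  | 0, _, _, _ => rfl
  | t + 1, u, x, i => by
    show pos (tup L m) t (fun k => u k.succ) ((tup L m).act (u 0) x) i = _
    rw [pos_tup L t]
    rfl

/-- the pair of two distinct points -/
def pr {n : ℕ} (p p' : Fin n) (h : p ≠ p') : Fin 2 ↪ Fin n where
  toFun i := if i = 0 then p else p'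
  inj' := by
    intro i j hij
    fin_cases i <;> fin_cases j <;> simp_all

/-- the sum of a product over the ordered pairs of distinct points -/
theorem sum_pairs {n : ℕ} (f : Fin n → ℝ) :
    ∑ x : Fin 2 ↪ Fin n, f (x 0) * f (x 1) = (∑ p, f p) ^ 2 - ∑ p, f p ^ 2 := by
  have h1 : ∑ x : Fin 2 ↪ Fin n, f (x 0) * f (x 1) =
      ∑ q ∈ (univ : Finset (Fin n × Fin n)).filter (fun q => q.1 ≠ q.2), f q.1 * f q.2 := by
    refine sum_bij' (fun (x : Fin 2 ↪ Fin n) _ => (x 0, x 1))
      (fun q hq => pr q.1 q.2 (mem_filter.1 hq).2) ?_ ?_ ?_ ?_ ?_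
    · intro x _
      rw [mem_filter]
      exact ⟨mem_univ _, fun h => absurd (x.injective h) (by decide)⟩
    · intro q _
      exact mem_univ _
    · intro x _
      apply DFunLike.ext
      intro i
      fin_cases i <;> simp [pr]
    · intro q _
      simp [pr]
    · intro x _
      rfl
  rw [h1, pow_two, sum_mul_sum, ← sum_product', univ_product_univ]
  have h2 : ∑ q : Fin n × Fin n, f q.1 * f q.2 =
      ∑ q ∈ (univ : Finset (Fin n × Fin n)).filter (fun q => q.1 ≠ q.2), f q.1 * f q.2 +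
      ∑ q ∈ (univ : Finset (Fin n × Fin n)).filter (fun q => ¬ q.1 ≠ q.2), f q.1 * f q.2 :=
    (sum_filter_add_sum_filter_not _ _ _).symm
  have h3 : ∑ q ∈ (univ : Finset (Fin n × Fin n)).filter (fun q => ¬ q.1 ≠ q.2), f q.1 * f q.2 =
      ∑ p, f p ^ 2 := by
    rw [sum_filter, Fintype.sum_prod_type]
    apply sum_congr rfl
    intro p _
    rw [sum_eq_single p]
    · simp [pow_two]
    · intro b _ hb
      rw [if_neg]
      simpa using fun h : p = b => hb h.symm
    · intro h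
      exact absurd (mem_univ _) h
  rw [h2, h3]
  ring

/-- **CONF**: the walk leaves a small set -/
theorem conf {n s : ℕ} (L : Letters (Fin n) Lam) {θ : ℝ} {S : Lam → ℝ} (hS : Wt L θ S) {ρ : ℝ}
    (hρ : 0 ≤ ρ) (hC : Con (tup L 2) S ρ) (t : ℕ) (a : Fin s → Fin n) (ha : Function.Injective a)
    (U : Finset (Fin n)) (c : ℕ) (hc0 : 0 < c) (hc : 2 * s * U.card ≤ c * n) :
    ∑ u ∈ (univ : Finset (Fin t → Lam)).filter
        (fun u => c ≤ (univ.filter fun l => pos L t u (a l) ∈ U).card), ∏ j, S (u j) ≤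
      4 * (s + s ^ 2 * (n * ρ ^ t)) / c ^ 2 := by
  classical
  rcases Nat.eq_zero_or_pos n with rfl | hn
  · -- no points
    have hs : s = 0 := by
      rcases Nat.eq_zero_or_pos s with h | h
      · exact h
      · exact (a ⟨0, h⟩).elim0
    subst hs
    rw [sum_eq_zero]
    · simp
    · intro u hu
      have h1 := (mem_filter.1 hu).2
      have h2 : (univ.filter fun l : Fin 0 => pos L t u (a l) ∈ U).card = 0 := by simp
      omega
  have hn' : (0 : ℝ) < n := by exact_mod_cast hn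
  have hc' : (0 : ℝ) < c := by exact_mod_cast hc0
  set κ : ℝ := (U.card : ℝ) / n with hκ
  have hκ0 : 0 ≤ κ := by positivity
  have hκ1 : κ ≤ 1 := by
    rw [hκ, div_le_one hn']
    have := card_le_univ U
    rw [Fintype.card_fin] at this
    exact_mod_cast this
  set f : Fin n → ℝ := fun p => (if p ∈ U then 1 else 0) - κ with hf
  have hf1 : ∀ p, |f p| ≤ 1 := by
    intro p
    rw [hf, abs_le]
    dsimp only
    split_ifs <;> constructor <;> linarith
  have hfs : ∑ p, f p = 0 := by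
    rw [hf, sum_sub_distrib, sum_const, card_univ, Fintype.card_fin, nsmul_eq_mul, hκ,
      mul_div_cancel₀ _ hn'.ne', sum_ite_mem, univ_inter, sum_const, nsmul_eq_mul, mul_one,
      sub_self]
  -- the weights of the words
  set W : (Fin t → Lam) → ℝ := fun u => ∏ j, S (u j) with hW
  have hW0 : ∀ u, 0 ≤ W u := fun u => prod_nonneg fun j _ => hS.nn _
  have hW1 : ∑ u, W u = 1 := by
    rw [hW, ← Fintype.prod_sum fun (_ : Fin t) l => S l]
    exact prod_eq_one fun k _ => hS.one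
  -- pairs
  have hpair : ∀ l l' : Fin s, l ≠ l' →
      ∑ u, W u * (f (pos L t u (a l)) * f (pos L t u (a l'))) ≤ n * ρ ^ t := by
    intro l l' hll
    have hne : a l ≠ a l' := fun h => hll (ha h)
    set D : (Fin 2 ↪ Fin n) → ℝ := fun x => f (x 0) * f (x 1) with hD
    have h1 := point_mix (tup L 2) (Wt_tup L 2 hS) hρ hC D (fun x => by
        rw [hD, abs_mul]
        exact mul_le_one₀ (hf1 _) (abs_nonneg _) (hf1 _)) hn'.le (by
        rw [Fintype.card_embedding_eq, Fintype.card_fin, Fintype.card_fin]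
        have : n.descFactorial 2 ≤ n ^ 2 := Nat.descFactorial_le_pow n 2
        exact_mod_cast this) (by
        rw [hD, sum_pairs, hfs]
        have : 0 ≤ ∑ p, f p ^ 2 := sum_nonneg fun p _ => sq_nonneg _
        linarith) t (pr (a l) (a l') hne)
    rw [iter_words] at h1
    refine le_trans (le_of_eq ?_) h1
    apply sum_congr rfl
    intro u _
    rw [hD]
    dsimp only
    rw [pos_tup, pos_tup]
    rfl
  -- second moment
  have hX : ∀ u, ((univ.filter fun l => pos L t u (a l) ∈ U).card : ℝ) - s * κ =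
      ∑ l, f (pos L t u (a l)) := by
    intro u
    rw [hf]
    dsimp only
    rw [sum_sub_distrib, sum_const, card_univ, Fintype.card_fin, nsmul_eq_mul, card_filter]
    push_cast
    rfl
  have hsec : ∑ u, W u * (∑ l, f (pos L t u (a l))) ^ 2 ≤ s + s ^ 2 * (n * ρ ^ t) := by
    have h1 : ∀ u, W u * (∑ l, f (pos L t u (a l))) ^ 2 =
        ∑ l, ∑ l', W u * (f (pos L t u (a l)) * f (pos L t u (a l'))) := by
      intro u
      rw [pow_two, sum_mul_sum, mul_sum]
      apply sum_congr rfl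
      intro l _
      rw [mul_sum]
    rw [sum_congr rfl fun u _ => h1 u, sum_comm]
    have h2 : ∀ l : Fin s, ∑ u, ∑ l', W u * (f (pos L t u (a l)) * f (pos L t u (a l'))) ≤
        1 + s * (n * ρ ^ t) := by
      intro l
      rw [sum_comm, ← add_sum_erase univ _ (mem_univ l)]
      apply add_le_add
      · calc ∑ u, W u * (f (pos L t u (a l)) * f (pos L t u (a l))) ≤ ∑ u, W u * 1 := by
              apply sum_le_sum
              intro u _
              apply mul_le_mul_of_nonneg_left _ (hW0 u)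
              rw [← pow_two, ← sq_abs]
              exact pow_le_one₀ (abs_nonneg _) (hf1 _)
          _ = 1 := by rw [← sum_mul, hW1, one_mul]
      · calc ∑ l' ∈ univ.erase l, ∑ u, W u * (f (pos L t u (a l)) * f (pos L t u (a l'))) ≤
              ∑ _l' ∈ univ.erase l, (n * ρ ^ t : ℝ) := sum_le_sum fun l' hl' =>
                hpair l l' (ne_of_mem_erase hl').symm
          _ = ((univ.erase l).card : ℝ) * (n * ρ ^ t) := by rw [sum_const, nsmul_eq_mul]
          _ ≤ s * (n * ρ ^ t) := by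
              apply mul_le_mul_of_nonneg_right _ (by positivity)
              have : (univ.erase l).card ≤ s := by
                calc (univ.erase l).card ≤ (univ : Finset (Fin s)).card := card_le_card (erase_subset _ _)
                  _ = s := by rw [card_univ, Fintype.card_fin]
              exact_mod_cast this
    calc ∑ l : Fin s, ∑ u, ∑ l', W u * (f (pos L t u (a l)) * f (pos L t u (a l'))) ≤
          ∑ _l : Fin s, (1 + s * (n * ρ ^ t) : ℝ) := sum_le_sum fun l _ => h2 l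
      _ = s + s ^ 2 * (n * ρ ^ t) := by
          rw [sum_const, card_univ, Fintype.card_fin, nsmul_eq_mul]
          ring
  -- Chebyshev
  have hch : ∀ u ∈ (univ : Finset (Fin t → Lam)).filter
      (fun u => c ≤ (univ.filter fun l => pos L t u (a l) ∈ U).card),
      (c : ℝ) ^ 2 / 4 * W u ≤ W u * (∑ l, f (pos L t u (a l))) ^ 2 := by
    intro u hu
    have h1 : c ≤ (univ.filter fun l => pos L t u (a l) ∈ U).card := (mem_filter.1 hu).2
    have h1' : (c : ℝ) ≤ (univ.filter fun l => pos L t u (a l) ∈ U).card := by exact_mod_cast h1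
    have h2 : 2 * (s * κ) ≤ c := by
      rw [hκ, ← mul_div_assoc, ← mul_div_assoc, div_le_iff₀ hn']
      have : (2 * s * U.card : ℝ) ≤ c * n := by exact_mod_cast hc
      linarith
    have h3 : (c : ℝ) / 2 ≤ ∑ l, f (pos L t u (a l)) := by
      rw [← hX]
      linarith
    have h4 : (c : ℝ) ^ 2 / 4 ≤ (∑ l, f (pos L t u (a l))) ^ 2 := by
      calc (c : ℝ) ^ 2 / 4 = (c / 2) ^ 2 := by ring
        _ ≤ _ := pow_le_pow_left₀ (by positivity) h3 2
    calc (c : ℝ) ^ 2 / 4 * W u ≤ (∑ l, f (pos L t u (a l))) ^ 2 * W u :=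
          mul_le_mul_of_nonneg_right h4 (hW0 u)
      _ = _ := mul_comm _ _
  have hfin : (c : ℝ) ^ 2 / 4 * ∑ u ∈ (univ : Finset (Fin t → Lam)).filter
      (fun u => c ≤ (univ.filter fun l => pos L t u (a l) ∈ U).card), W u ≤
      s + s ^ 2 * (n * ρ ^ t) := by
    rw [mul_sum]
    calc ∑ u ∈ (univ : Finset (Fin t → Lam)).filter
          (fun u => c ≤ (univ.filter fun l => pos L t u (a l) ∈ U).card),
            (c : ℝ) ^ 2 / 4 * W u ≤
        ∑ u ∈ (univ : Finset (Fin t → Lam)).filter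
          (fun u => c ≤ (univ.filter fun l => pos L t u (a l) ∈ U).card),
            W u * (∑ l, f (pos L t u (a l))) ^ 2 := sum_le_sum hch
      _ ≤ ∑ u, W u * (∑ l, f (pos L t u (a l))) ^ 2 :=
          sum_le_sum_of_subset_of_nonneg (filter_subset _ _) fun u _ _ =>
            mul_nonneg (hW0 u) (sq_nonneg _)
      _ ≤ _ := hsec
  rw [le_div_iff₀ (by positivity)]
  have : ∑ u ∈ (univ : Finset (Fin t → Lam)).filter
      (fun u => c ≤ (univ.filter fun l => pos L t u (a l) ∈ U).card), W u * c ^ 2 =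
      4 * ((c : ℝ) ^ 2 / 4 * ∑ u ∈ (univ : Finset (Fin t → Lam)).filter
      (fun u => c ≤ (univ.filter fun l => pos L t u (a l) ∈ U).card), W u) := by
    rw [← sum_mul]
    ring
  rw [sum_mul, this]
  linarith

/-- the same with an indicator -/
theorem conf_ite {n s : ℕ} (L : Letters (Fin n) Lam) {θ : ℝ} {S : Lam → ℝ} (hS : Wt L θ S)
    {ρ : ℝ} (hρ : 0 ≤ ρ) (hC : Con (tup L 2) S ρ) (t : ℕ) (a : Fin s → Fin n)
    (ha : Function.Injective a) (U : Finset (Fin n)) (c : ℕ) (hc0 : 0 < c)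
    (hc : 2 * s * U.card ≤ c * n) :
    ∑ u : Fin t → Lam, (if c ≤ (univ.filter fun l => pos L t u (a l) ∈ U).card then
      ∏ j, S (u j) else 0) ≤ 4 * (s + s ^ 2 * (n * ρ ^ t)) / c ^ 2 := by
  rw [← sum_filter]
  exact conf L hS hρ hC t a ha U c hc0 hc

end conf

section alt

open Pool.Agent.Helper3.AK (Alt TupleGap tupleWalk)

/-- the gap of the walk on tuples gives the contraction of the lazy walk -/
theorem con_of_tupleGap {K n r : ℕ} (hK : 0 < K) (z : Fin K → Alt n) {ε : ℝ} (hε : ε < 2)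
    (h : TupleGap z r ε) :
    Con (tup (gl fun i => (z i : Equiv.Perm (Fin n))) r) (lwt (Fin K) (1 / 2)) (1 - ε / 2) := by
  have : Nonempty (Fin K) := ⟨⟨0, hK⟩⟩
  have hW : Wt (tup (gl fun i => (z i : Equiv.Perm (Fin n))) r) (1 / 2) (lwt (Fin K) (1 / 2)) :=
    Wt_tup _ r (lwt_Wt _ (by norm_num) (by norm_num))
  apply con_of_gap _ hW le_rfl (by linarith)
  intro φ hφ
  have h1 := h φ hφ
  have h2 : ∀ x, stp (tup (gl fun i => (z i : Equiv.Perm (Fin n))) r) (lwt (Fin K) (1 / 2)) φ x =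
      1 / 2 * φ x + 1 / 2 * tupleWalk z r φ x := by
    intro x
    unfold stp tupleWalk
    rw [Fintype.sum_option, Fintype.sum_prod_type]
    have h3 : ∀ i : Fin K, ∑ b : Bool, lwt (Fin K) (1 / 2) (some (i, b)) *
        φ ((tup (gl fun i => (z i : Equiv.Perm (Fin n))) r).act (some (i, b)) x) =
        1 / 2 * ((2 * (K : ℝ))⁻¹ * (φ (x.trans (z i : Equiv.Perm (Fin n)).toEmbedding) +
          φ (x.trans ((z i)⁻¹ : Equiv.Perm (Fin n)).toEmbedding))) := by
      intro i
      rw [Fintype.sum_bool]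
      show (1 - 1 / 2) / (2 * (Fintype.card (Fin K) : ℝ)) *
          φ (x.trans (z i : Equiv.Perm (Fin n)).toEmbedding) +
        (1 - 1 / 2) / (2 * (Fintype.card (Fin K) : ℝ)) *
          φ (x.trans ((z i)⁻¹ : Equiv.Perm (Fin n)).toEmbedding) = _
      rw [Fintype.card_fin]
      have hK' : (K : ℝ) ≠ 0 := by positivity
      field_simp
      ring
    rw [sum_congr rfl fun i _ => h3 i, ← mul_sum, ← mul_sum]
    rfl
  have h3 : ∑ x, φ x * stp (tup (gl fun i => (z i : Equiv.Perm (Fin n))) r)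
      (lwt (Fin K) (1 / 2)) φ x = 1 / 2 * ∑ x, φ x ^ 2 + 1 / 2 * ∑ x, φ x * tupleWalk z r φ x := by
    rw [mul_sum, mul_sum, ← sum_add_distrib]
    apply sum_congr rfl
    intro x _
    rw [h2]
    ring
  rw [h3]
  linarith

end alt

end Pool.Agent.Helper19.FS
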